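import Pool.Agent.Helper93.IA.StC

/-!
# Project IA part C (MP_953b28_co), module STP: the matching step for one class
-/

set_option autoImplicit false

namespace Pool.Agent.Helper80.IAC

open Finset
open Pool.Agent.Helper93.IA

theorem hSTP : StSTP := by
  intro hMAT hMTA hCN1 hCN2 hNM2 hNUM ξ ρ η g' hξ0 hξ1 hρ0 hρ1 hη0 hη1 hg0 hg1
  obtain ⟨n0, hn0⟩ := hNUM hNM2 ξ ρ η g' hξ0 hξ1 hρ0 hρ1 hη0 hη1 hg0 hg1
  refine ⟨n0, ?_⟩
  intro α β γ _ _ _ _ _ _ κ n m A QA LA S B QB C QC LC K U1 W1 U2 W2 U3 W3 hκ0 hκ1 hn hm cα cβ cγ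
    w2 w3 r1 r2 r3 rem hbal hlow
  obtain ⟨-, -, t, b, R, D, μ, hR, ht, htbR, hμ, hD, hD2, hpot⟩ := hn0 n m κ hn hm hκ0 hκ1
  obtain ⟨c1, c2⟩ := hCN1 α β γ κ ρ η g' n m A QA LA S B QB C QC LC K U1 U2 W2 U3 W3 r1 rem
  obtain ⟨o1, o2, o3, o4⟩ := hCN2 α β γ κ ρ η g' n m A QA LA S B QB C QC LC K U1 W1 U2 W2 U3 W3
    hρ0.le hg0.le r1 r2 r3 rem
  have hw : ∀ w : ℕ, (w : ℝ) ≤ ξ * m →
      51 / 50 * ρ * κ * m + 2 * ρ * w + 2 * η * n + g' * n ≤ t := by
    intro w hw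
    have h1 : 2 * ρ * (w : ℝ) ≤ 2 * ρ * (ξ * m) :=
      mul_le_mul_of_nonneg_left hw (by linarith)
    linarith
  obtain ⟨P, pP, iA, iC, dB, dC⟩ := hMTA hMAT α β γ n S (hb B U2 W2 U3 W3) K U1 t b R D μ
    (le_of_eq cα) (le_of_eq cβ) (le_of_eq cγ) hR (fun e he => (rem.oS e he).1)
    (fun e he => (rem.oK e he).2) hbal
    (by
      intro a ha
      have h1 := (r1.szA a ha).1
      have h2 := hlow a ha
      have h3 : (2 * (t + b + R) : ℝ) ≤ (d1 S a : ℝ) := by linarith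
      exact_mod_cast h3)
    (by
      intro a ha b' hb'
      have h1 := (c1 a ha b' hb').trans (hw _ w3)
      exact_mod_cast h1)
    (by
      intro a ha c hc
      have h1 := (c2 a ha c hc).trans (hw _ w2)
      exact_mod_cast h1)
    (by
      intro a a' ha ha' hne
      have h1 := (o1 a a' ha ha' hne).trans hμ
      exact_mod_cast h1)
    (by
      intro a a' ha ha' hne
      have h1 := (o2 a a' ha ha' hne).trans hμ
      exact_mod_cast h1)
    (by
      intro b'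
      have h1 := (o3 b').trans hD
      exact_mod_cast h1)
    (by
      intro c
      have h1 := (o4 c).trans hD
      exact_mod_cast h1)
    hpot
  refine ⟨P, pP, iA, iC, ?_, ?_⟩
  · intro b'
    have h1 : (d1 (P.image eB) b' : ℝ) ≤ (D : ℝ) := by exact_mod_cast dB b'
    exact h1.trans hD2
  · intro c
    have h1 : (d2 (P.image eB) c : ℝ) ≤ (D : ℝ) := by exact_mod_cast dC c
    exact h1.trans hD2

end Pool.Agent.Helper80.IAC
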